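import Mathlib
import Pool.Agent.Q324.SC.TriPL
import Pool.Agent.Q287.BA.TriP

/-!
# Deciding diffeomorphism of homeomorphic 4-manifolds: bounded advice does not help

The inputs are pairs of finite simplicial complexes that triangulate homeomorphic piecewise linear
4-manifolds (with or without boundary), the question is whether these are piecewise linearly
homeomorphic (in dimension four this means: diffeomorphic). Suppose that there are `k` algorithms
(which need not halt always) such that for all `N`, `N'` one of them has few failures (it does not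
halt or gives the wrong answer) among the pairs with `N` and `N'` facets, where the good one may depend
on `N`, `N'` in an arbitrary, non-computable way. Then the problem is solvable.

The reason: a majority vote over the iterated subdivisions with about `4 n` facets gives for each
index `n` a list of `k` candidates for the answers, which need not halt, and one of which is right for
all small inputs; there is a finite set of inputs that tells for infinitely many `n` which candidates
halt, and which rules out enough of these.
-/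

set_option autoImplicit false

namespace Pool.Agent.Results.MP_d40431_gt.BoundedAdvice

open Pool.Agent.Q324.SC.Tri

/-- The geometric realization of the complex spanned by the facets in `K`. -/
def Space (K : List (List ℕ)) : Set (ℕ → ℝ) :=
  {x : ℕ → ℝ | ∃ σ ∈ K, (∀ i, 0 ≤ x i) ∧ (∀ i, i ∉ σ → x i = 0) ∧ ∑ i ∈ σ.toFinset, x i = 1}

/-- `K` is the list, without repetition, of the facets of a pure 4-dimensional simplicial complex
with vertex set `{0, ..., n - 1}` for some `n`; each facet is given by the increasing list of its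
five vertices. -/
structure IsComplex (K : List (List ℕ)) : Prop where
  ne : K ≠ []
  nodup : K.Nodup
  increasing : ∀ s ∈ K, s.Pairwise (· < ·)
  five : ∀ s ∈ K, s.length = 5
  vertices : ∀ s ∈ K, ∀ i ∈ s, ∀ j < i, ∃ t ∈ K, j ∈ t

/-- The admissible inputs: triangulations of homeomorphic piecewise linear 4-manifolds, with or
without boundary. -/
def Admissible (K L : List (List ℕ)) : Prop :=
  IsComplex K ∧ IsComplex L ∧ PLMan (Space K) ∧ PLMan (Space L) ∧ Nonempty (Space K ≃ₜ Space L)

/-- Some algorithm (a partial computable function) halts for all admissible pairs and decides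
whether the manifolds are piecewise linearly homeomorphic. -/
def Solvable : Prop :=
  ∃ D : List (List ℕ) × List (List ℕ) →. Bool, Partrec D ∧
    ∀ K L, Admissible K L → ∃ b ∈ D (K, L), (b = true ↔ PLHomeo (Space K) (Space L))

/-- The admissible pairs (of sets of facets) with `N` and `N'` facets for which `f`, applied to some
lists of the facets, does not halt or gives the wrong answer. -/
def Exceptions (f : List (List ℕ) × List (List ℕ) →. Bool) (N N' : ℕ) :
    Set (Finset (List ℕ) × Finset (List ℕ)) :=
  {S | ∃ K L, Admissible K L ∧ K.length = N ∧ L.length = N' ∧ K.toFinset = S.1 ∧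
    L.toFinset = S.2 ∧ ¬ ∃ b ∈ f (K, L), (b = true ↔ PLHomeo (Space K) (Space L))}

/-- Of `k` algorithms one (which may depend on `N`, `N'`) has few exceptions with `N` and `N'`
facets. -/
def OneOfFew (k C : ℕ) (f : ℕ × List (List ℕ) × List (List ℕ) →. Bool) : Prop :=
  ∀ N N' : ℕ, ∃ i < k, (Exceptions (fun p => f (i, p)) N N').encard ≤
    ((C * 3 ^ (N / 4 + N' / 4) * Nat.factorial (N / 4) * Nat.factorial (N' / 4) : ℕ) : ℕ∞)

lemma valid_iff (K : List (List ℕ)) : Valid K ↔ IsComplex K :=
  ⟨fun h => ⟨h.ne, h.nodup, h.sorted, h.len, h.seg⟩,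
    fun h => ⟨h.ne, h.nodup, h.increasing, h.five, h.vertices⟩⟩

lemma adm_sub {K L : Cx} {c : ℕ} (hK : Valid K) (hc : c < K.length) (h : Admissible K L) :
    Admissible (sub K c) L :=
  ⟨(valid_iff _).1 (sub_valid hK hc), h.2.1, h.2.2.1.transport (sub_isPL hK hc), h.2.2.2.1,
    h.2.2.2.2.elim fun e => ⟨(subHomeo hK hc).trans e⟩⟩

lemma adm_symm {K L : Cx} (h : Admissible K L) : Admissible L K :=
  ⟨h.2.1, h.1, h.2.2.2.1, h.2.2.1, h.2.2.2.2.elim fun e => ⟨e.symm⟩⟩

lemma pl_sub {K L : Cx} {c : ℕ} (hK : Valid K) (hc : c < K.length) :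
    PLHomeo (Space (sub K c)) (Space L) ↔ PLHomeo (Space K) (Space L) :=
  ⟨fun h => PLHomeo.trans ⟨_, _, (sub_isPL hK hc).symm⟩ h,
    fun h => PLHomeo.trans ⟨_, _, sub_isPL hK hc⟩ h⟩

lemma pl_comm {X Y : Set (ℕ → ℝ)} : PLHomeo X Y ↔ PLHomeo Y X := ⟨PLHomeo.symm, PLHomeo.symm⟩

/-- Diffeomorphism of homeomorphic triangulated 4-manifolds is decidable if and only if there are
numbers `k`, `C` and partial computable functions `f (0, ·), …, f (k - 1, ·)` such that for all `N`,
`N'` one of them has at most `C * 3 ^ (N/4 + N'/4) * (N/4)! * (N'/4)!` exceptions among the admissible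
pairs with `N` and `N'` facets. -/
theorem result : Solvable ↔ ∃ (k C : ℕ) (f : ℕ × List (List ℕ) × List (List ℕ) →. Bool),
    Partrec f ∧ OneOfFew k C f := by
  constructor
  · rintro ⟨D, hD, hD2⟩
    refine ⟨1, 0, fun x => D x.2, hD.comp Computable.snd, fun N N' => ⟨0, Nat.one_pos, ?_⟩⟩
    have h1 : Exceptions (fun p => D p) N N' = ∅ := by
      ext S
      simp only [Exceptions, Set.mem_ofPred_eq, Set.mem_empty_iff_false, iff_false]
      rintro ⟨K, L, h1, _, _, _, _, h5⟩
      exact h5 (hD2 K L h1)
    rw [h1, Set.encard_empty]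
    exact zero_le
  rintro ⟨k, C, f, hf, h⟩
  obtain ⟨D, hD, hD2⟩ := Pool.Agent.Q287.BA.Tri.advicep2 k C (A := f) hf (Pr := Admissible)
    (Q := fun K L => PLHomeo (Space K) (Space L))
    (fun L K c hK hc h1 => adm_sub hK hc h1)
    (fun K L c hL hc h1 => adm_symm (adm_sub hL hc (adm_symm h1)))
    (fun L K c hK hc => pl_sub hK hc)
    (fun K L c hL hc => by rw [pl_comm, pl_sub hL hc, pl_comm])
    (by
      intro N N'
      obtain ⟨i, hi, hi2⟩ := h N N'
      refine ⟨i, hi, le_trans (Set.encard_le_encard ?_) (hi2.trans ?_)⟩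
      · rintro S ⟨K, L, h1, h1', h2, h2', h3, h4, h4', h5⟩
        exact ⟨K, L, h3, h2, h2', h4, h4', h5⟩
      · have h1 : C ≤ C * C := Nat.le_mul_self C
        have h2 : C * 3 ^ (N / 4 + N' / 4) * Nat.factorial (N / 4) * Nat.factorial (N' / 4)
            ≤ bound C N * bound C N' := by
          unfold bound
          calc C * 3 ^ (N / 4 + N' / 4) * Nat.factorial (N / 4) * Nat.factorial (N' / 4)
              ≤ (C * C) * 3 ^ (N / 4 + N' / 4) * Nat.factorial (N / 4)
                * Nat.factorial (N' / 4) :=
                Nat.mul_le_mul_right _ (Nat.mul_le_mul_right _ (Nat.mul_le_mul_right _ h1))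
            _ = _ := by
                rw [pow_add]
                ring
        exact_mod_cast h2)
  refine ⟨D, hD, fun K L h1 => ?_⟩
  obtain ⟨b, hb, hb2⟩ := hD2 K L ((valid_iff K).2 h1.1) ((valid_iff L).2 h1.2.1) h1
  exact ⟨b, Part.eq_some_iff.1 hb, hb2⟩

end Pool.Agent.Results.MP_d40431_gt.BoundedAdvice
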