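import Mathlib
import Pool.Agent.Q324.SC.TriPL

/-!
# Deciding diffeomorphism of homeomorphic 4-manifolds: few errors suffice

The inputs are pairs of finite simplicial complexes that triangulate homeomorphic piecewise linear
4-manifolds (with or without boundary), the question is whether these are piecewise linearly
homeomorphic (in dimension four this means: diffeomorphic). It is shown that the problem is solvable
as soon as some computable function solves it with few exceptions.

The reason: subdividing facets again and again changes neither the manifold nor the piecewise linear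
structure, and it gives more pairs than there are exceptions. The majority gives the answer.
-/

set_option autoImplicit false

namespace Pool.Agent.Results.MP_d40431_gt.WorstCaseFromMostPairs

open Pool.Agent.Q324.SC.Tri

/-- The geometric realization of the complex spanned by the facets in `K`. -/
def Space (K : List (List ℕ)) : Set (ℕ → ℝ) :=
  {x : ℕ → ℝ | ∃ σ ∈ K, (∀ i, 0 ≤ x i) ∧ (∀ i, i ∉ σ → x i = 0) ∧ ∑ i ∈ σ.toFinset, x i = 1}

/-- `K` is the list, without repetition, of the facets of a pure 4-dimensional simplicial complex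
with vertex set `{0, ..., n - 1}` for some `n`; each facet is given by the increasing list of its
five vertices. -/
structure IsComplex (K : List (List ℕ)) : Prop where
  ne : K ≠ []
  nodup : K.Nodup
  increasing : ∀ s ∈ K, s.Pairwise (· < ·)
  five : ∀ s ∈ K, s.length = 5
  vertices : ∀ s ∈ K, ∀ i ∈ s, ∀ j < i, ∃ t ∈ K, j ∈ t

/-- The admissible inputs: triangulations of homeomorphic piecewise linear 4-manifolds, with or
without boundary. -/
def Admissible (K L : List (List ℕ)) : Prop :=
  IsComplex K ∧ IsComplex L ∧ PLMan (Space K) ∧ PLMan (Space L) ∧ Nonempty (Space K ≃ₜ Space L)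

/-- Some computable function decides, for all admissible pairs, whether the manifolds are piecewise
linearly homeomorphic. -/
def Solvable : Prop :=
  ∃ f : List (List ℕ) × List (List ℕ) → Bool, Computable f ∧
    ∀ K L, Admissible K L → (f (K, L) = true ↔ PLHomeo (Space K) (Space L))

/-- The admissible pairs (of sets of facets) with `N` and `N'` facets for which `f`, applied to some
lists of the facets, gives the wrong answer. -/
def Exceptions (f : List (List ℕ) × List (List ℕ) → Bool) (N N' : ℕ) :
    Set (Finset (List ℕ) × Finset (List ℕ)) :=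
  {S | ∃ K L, Admissible K L ∧ K.length = N ∧ L.length = N' ∧ K.toFinset = S.1 ∧
    L.toFinset = S.2 ∧ ¬ (f (K, L) = true ↔ PLHomeo (Space K) (Space L))}

/-- The complexes with `N` facets that form with `L` an admissible pair for which `f` gives, for
some list of the facets, the wrong answer. -/
def ExceptionsFor (f : List (List ℕ) × List (List ℕ) → Bool) (L : List (List ℕ)) (N : ℕ) :
    Set (Finset (List ℕ)) :=
  {S | ∃ K, Admissible K L ∧ K.length = N ∧ K.toFinset = S ∧
    ¬ (f (K, L) = true ↔ PLHomeo (Space K) (Space L))}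

lemma valid_iff (K : List (List ℕ)) : Valid K ↔ IsComplex K :=
  ⟨fun h => ⟨h.ne, h.nodup, h.sorted, h.len, h.seg⟩,
    fun h => ⟨h.ne, h.nodup, h.increasing, h.five, h.vertices⟩⟩

lemma adm_sub {K L : Cx} {c : ℕ} (hK : Valid K) (hc : c < K.length) (h : Admissible K L) :
    Admissible (sub K c) L :=
  ⟨(valid_iff _).1 (sub_valid hK hc), h.2.1, h.2.2.1.transport (sub_isPL hK hc), h.2.2.2.1,
    h.2.2.2.2.elim fun e => ⟨(subHomeo hK hc).trans e⟩⟩

lemma adm_symm {K L : Cx} (h : Admissible K L) : Admissible L K :=
  ⟨h.2.1, h.1, h.2.2.2.1, h.2.2.1, h.2.2.2.2.elim fun e => ⟨e.symm⟩⟩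

lemma pl_sub {K L : Cx} {c : ℕ} (hK : Valid K) (hc : c < K.length) :
    PLHomeo (Space (sub K c)) (Space L) ↔ PLHomeo (Space K) (Space L) :=
  ⟨fun h => PLHomeo.trans ⟨_, _, (sub_isPL hK hc).symm⟩ h,
    fun h => PLHomeo.trans ⟨_, _, sub_isPL hK hc⟩ h⟩

lemma pl_comm {X Y : Set (ℕ → ℝ)} : PLHomeo X Y ↔ PLHomeo Y X := ⟨PLHomeo.symm, PLHomeo.symm⟩

/-- (1) Diffeomorphism of homeomorphic triangulated 4-manifolds is decidable if and only if some
computable function decides it with at most `C * 3 ^ (N/4 + N'/4) * (N/4)! * (N'/4)!` exceptions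
among the admissible pairs with `N` and `N'` facets, for some constant `C`. (2) It is decidable if
and only if some computable function decides it with at most `C L * 3 ^ (N/4) * (N/4)!` exceptions
among the complexes with `N` facets, for each second member `L` of the pair, for some computable
function `C`. -/
theorem result :
    (Solvable ↔ ∃ (f : List (List ℕ) × List (List ℕ) → Bool) (C : ℕ), Computable f ∧
      ∀ N N' : ℕ, (Exceptions f N N').encard ≤
        ((C * 3 ^ (N / 4 + N' / 4) * Nat.factorial (N / 4) * Nat.factorial (N' / 4) : ℕ) : ℕ∞)) ∧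
    (Solvable ↔ ∃ (f : List (List ℕ) × List (List ℕ) → Bool) (C : List (List ℕ) → ℕ),
      Computable f ∧ Computable C ∧
      ∀ (L : List (List ℕ)) (N : ℕ), (ExceptionsFor f L N).encard ≤
        ((C L * 3 ^ (N / 4) * Nat.factorial (N / 4) : ℕ) : ℕ∞)) := by
  refine ⟨⟨?_, ?_⟩, ⟨?_, ?_⟩⟩
  · rintro ⟨f, hf, h⟩
    refine ⟨f, 0, hf, fun N N' => ?_⟩
    have h1 : Exceptions f N N' = ∅ := by
      ext S
      simp only [Exceptions, Set.mem_setOf_eq, Set.mem_empty_iff_false, iff_false]
      rintro ⟨K, L, h1, _, _, _, _, h3⟩
      exact h3 (h K L h1)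
    rw [h1, Set.encard_empty]
    exact zero_le
  · rintro ⟨f, C, hf, h⟩
    obtain ⟨D, hD, hD2⟩ := correct2 (A := f) C hf (Pr := Admissible)
      (Q := fun K L => PLHomeo (Space K) (Space L))
      (fun L K c hK hc h1 => adm_sub hK hc h1)
      (fun K L c hL hc h1 => adm_symm (adm_sub hL hc (adm_symm h1)))
      (fun L K c hK hc => pl_sub hK hc)
      (fun K L c hL hc => by rw [pl_comm, pl_sub hL hc, pl_comm])
      (by
        intro N N'
        refine le_trans (Set.encard_le_encard ?_) ((h N N').trans ?_)
        · rintro S ⟨K, L, h1, h1', h2, h2', h3, h4, h4', h5⟩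
          exact ⟨K, L, h3, h2, h2', h4, h4', h5⟩
        · have h1 : C ≤ C * C := Nat.le_mul_self C
          have h2 : C * 3 ^ (N / 4 + N' / 4) * Nat.factorial (N / 4) * Nat.factorial (N' / 4)
              ≤ bound C N * bound C N' := by
            unfold bound
            calc C * 3 ^ (N / 4 + N' / 4) * Nat.factorial (N / 4) * Nat.factorial (N' / 4)
                ≤ (C * C) * 3 ^ (N / 4 + N' / 4) * Nat.factorial (N / 4)
                  * Nat.factorial (N' / 4) :=
                  Nat.mul_le_mul_right _ (Nat.mul_le_mul_right _ (Nat.mul_le_mul_right _ h1))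
              _ = _ := by
                  rw [pow_add]
                  ring
          exact_mod_cast h2)
    exact ⟨D, hD, fun K L h1 => hD2 K L ((valid_iff K).2 h1.1) ((valid_iff L).2 h1.2.1) h1⟩
  · rintro ⟨f, hf, h⟩
    refine ⟨f, fun _ => 0, hf, Computable.const 0, fun L N => ?_⟩
    have h1 : ExceptionsFor f L N = ∅ := by
      ext S
      simp only [ExceptionsFor, Set.mem_setOf_eq, Set.mem_empty_iff_false, iff_false]
      rintro ⟨K, h1, _, _, h3⟩
      exact h3 (h K L h1)
    rw [h1, Set.encard_empty]
    exact zero_le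
  · rintro ⟨f, C, hf, hC, h⟩
    have hA : Computable (fun x : Cx × Cx => f (x.2, x.1)) :=
      hf.comp (Computable.snd.pair Computable.fst)
    obtain ⟨D, hD, hD2⟩ := correct (α := Cx) (A := fun x => f (x.2, x.1)) (C := C) hA hC
      (Pr := fun L K => Admissible K L) (Q := fun L K => PLHomeo (Space K) (Space L))
      (fun L K c hK hc h1 => adm_sub hK hc h1)
      (fun L K c hK hc => pl_sub hK hc)
      (by
        intro L N
        refine le_trans (Set.encard_le_encard ?_) (h L N)
        rintro S ⟨K, h1, h2, h3, h4, h5⟩
        exact ⟨K, h3, h2, h4, h5⟩)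
    refine ⟨fun x => D (x.2, x.1), hD.comp (Computable.snd.pair Computable.fst), ?_⟩
    intro K L h1
    exact hD2 L K ((valid_iff K).2 h1.1) h1

end Pool.Agent.Results.MP_d40431_gt.WorstCaseFromMostPairs
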